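import Pool.Agent.H92.EM.TC

/-!
# Board emd_modules, row MFI: the theorem
-/

set_option autoImplicit false

namespace Pool.Agent.H95.EM

open scoped BigOperators ComplexConjugate ContDiff ComplexOrder
open MeasureTheory Pool.Agent.H92.EQ Pool.Agent.H92.EM Filter Topology

theorem pf_MFI (hMZK : T_MZK) (hMAW : T_MAW) (hMMA : T_MMA) (hMKZ : T_MKZ) (hMPZ : T_MPZ)
    (hMLE : T_MLE) (hMTZ : T_MTZ) (hKP : T_KP2) (hKG : T_KG2) (hP5 : T_P5) (hD12 : T_D12) :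
    T_MFI := by
  intro m k d p q F K φ u hm hk hd hpq hF hK hφ hu
  have hpq' : p + q + 1 = k + 1 := by omega
  have hd1 : 1 ≤ d := by omega
  obtain ⟨C, hCC⟩ := hKP (k + 1) d p q F φ u hd hpq' hF.isH hφ hu
  have hdlt : (1 : ℝ) < d := by exact_mod_cast (by omega : 1 < d)
  have hb : Tendsto (fun l : ℕ => 2 * (C / (d : ℝ) ^ l)) atTop (𝓝 0) := by
    have h1 : Tendsto (fun l : ℕ => ((1 : ℝ) / d) ^ l) atTop (𝓝 0) := by
      apply tendsto_pow_atTop_nhds_zero_of_lt_one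
      · positivity
      · rw [div_lt_one (by positivity)]
        exact hdlt
    have h2 := h1.const_mul (2 * C)
    rw [mul_zero] at h2
    refine h2.congr fun l => ?_
    rw [one_div, inv_pow]
    ring
  have hcs : CauchySeq (fun n => pair φ (Sn F d n (om (k + 1) p)) u) := by
    refine cauchySeq_of_le_tendsto_0 (fun l => 2 * (C / (d : ℝ) ^ l)) ?_ hb
    intro n m l hn hm
    rw [Real.dist_eq]
    have h1 := hCC l n hn
    have h2 := hCC l m hm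
    have := abs_sub_le (pair φ (Sn F d n (om (k + 1) p)) u)
      (pair φ (Sn F d l (om (k + 1) p)) u) (pair φ (Sn F d m (om (k + 1) p)) u)
    rw [abs_sub_comm (pair φ (Sn F d l (om (k + 1) p)) u)] at this
    linarith
  obtain ⟨L, hL⟩ := cauchySeq_tendsto_of_complete hcs
  refine ⟨L, hL, fun ε hε => ?_⟩
  obtain ⟨κ, hκ, hZ, hsub⟩ := hMZK m k d F hm hk hd hF
  obtain ⟨i0, hi0⟩ := hsub K hK
  have hAw : StK F {K | AwayE m F K} := hMAW m k d F hd hF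
  have hFF : StK F {K' | AwayE m F K' ∧ K' ⊆ Zk m κ} := by
    intro K' hK'
    exact ⟨hAw K' hK'.1, fun z hz => hZ (hK'.2 hz)⟩
  have hKz : InK K (fun _ _ _ => (0 : ℂ) : Form (Fin (k + 1)) p) := fun _ _ _ _ _ => rfl
  have hK0 : AwayE m F (ev (iter F i0) ⁻¹' K) :=
    (hKG (k + 1) d p i0 F K _ (fun _ => 0) hd1 hF.isH hKz).2.2 _ hAw hK
  have hC : ConvE m F d p {K' | AwayE m F K' ∧ K' ⊆ Zk m κ} :=
    hMKZ m k d p κ F {K' | AwayE m F K' ∧ K' ⊆ Zk m κ} hm hk hd hF hFF (fun K' h => h.2)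
      (fun hmk K' h => hMPZ m k d κ F K' hmk hk hd hF hZ h.2 (hMLE m k k 0 hm)
        (hMTZ m k k 0 hm (by omega)) h.1)
  obtain ⟨a, ha, hCa⟩ := hC q hpq φ u hφ hu (ε / 2) (by linarith)
  obtain ⟨n1, h1⟩ := hCa (ev (iter F i0) ⁻¹' K) ⟨hK0, hi0⟩
  obtain ⟨n2, h2⟩ := (Metric.tendsto_atTop.1 hL) (ε / 2) (by linarith)
  obtain ⟨B, hB, hMA⟩ := hMMA m k d p q F hd hpq hF
  obtain ⟨n3, h3⟩ : ∃ n3 : ℕ, ∀ n ≥ n3, B ≤ a / 2 * (d : ℝ) ^ n := by
    have ht : Tendsto (fun n : ℕ => a / 2 * (d : ℝ) ^ n) atTop atTop :=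
      (tendsto_pow_atTop_atTop_of_one_lt hdlt).const_mul_atTop (by linarith)
    exact eventually_atTop.1 (ht.eventually (eventually_ge_atTop B))
  refine ⟨a / 2, by linarith, i0 + n1 + n2 + n3, fun n hn S hS hSK hms hlm => ?_⟩
  have hn0 : i0 + (n - i0) = n := by omega
  have hcl : Cls m K q (a / 2 * (d : ℝ) ^ n) S := ⟨hS, hSK, hms, hlm⟩
  have hS0 := hMA K i0 (a / 2 * (d : ℝ) ^ n) S (by positivity) hcl
  have hM : 0 ≤ mass q (om (k + 1) p) := by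
    rw [← hms]
    exact (hP5 (k + 1) p q d S hpq' hS).2.2
  have hle : a / 2 * (d : ℝ) ^ n / (d : ℝ) ^ i0 + B ≤ a * (d : ℝ) ^ (n - i0) := by
    have e1 : (d : ℝ) ^ n = (d : ℝ) ^ i0 * (d : ℝ) ^ (n - i0) := by
      rw [← pow_add, hn0]
    have e2 : a / 2 * (d : ℝ) ^ n / (d : ℝ) ^ i0 = a / 2 * (d : ℝ) ^ (n - i0) := by
      rw [e1]
      have : (d : ℝ) ^ i0 ≠ 0 := by positivity
      field_simp
    rw [e2]
    have := h3 (n - i0) (by omega)
    linarith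
  have hS1 : Cls m (ev (iter F i0) ⁻¹' K) q (a * (d : ℝ) ^ (n - i0)) (Sn F d i0 S) := by
    refine ⟨hS0.pf, hS0.ink, hS0.ms, ?_⟩
    intro b hb δ hδ hδ1
    exact (hS0.lm b hb δ hδ hδ1).trans (mul_le_mul_of_nonneg_right hle hM)
  have hcomp : Sn F d n S = Sn F d (n - i0) (Sn F d i0 S) := by
    have := fun z => (hD12 (k + 1) d F hd1 hF.isH i0 (n - i0)).2.2.2.1 p S z
    rw [hn0] at this
    exact funext this
  have a1 := h1 (n - i0) (by omega) _ hS1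
  rw [← hcomp] at a1
  have a2 := h2 (n - i0) (by omega)
  rw [Real.dist_eq] at a2
  have := abs_sub_le (pair φ (Sn F d n S) u) (pair φ (Sn F d (n - i0) (om (k + 1) p)) u) L
  linarith

end Pool.Agent.H95.EM
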