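import Pool.Agent.H95.EM.MSDa

/-!
Row MSD of emd_modules: masses in the region `|Y| ~ 1`.
-/

set_option autoImplicit false

namespace Pool.Agent.H95.EM

open scoped BigOperators ComplexConjugate ContDiff ComplexOrder
open MeasureTheory Pool.Agent.H92.EQ Pool.Agent.H92.EM
open Pool.Agent.H92.EHD (trF T_RTR)

variable {N : ℕ}

theorem wedge_lin {p : ℕ} (T : (Fin p → Fin N) → (Fin p → Fin N) → ℂ)
    (A B E : Matrix (Fin N) (Fin N) ℂ) (α β : ℂ) (I J : Fin (p + 1) → Fin N) :
    wedge T (α • A + (β • B - E)) I J =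
      α * wedge T A I J + (β * wedge T B I J - wedge T E I J) := by
  have h1 : ∀ (c : ℂ) (M : Matrix (Fin N) (Fin N) ℂ),
      c * (((p + 1 : ℂ) ^ 2)⁻¹ * ∑ a : Fin (p + 1), ∑ b : Fin (p + 1),
        (-1 : ℂ) ^ ((a : ℕ) + (b : ℕ)) * T (I ∘ a.succAbove) (J ∘ b.succAbove) *
          M (I a) (J b)) =
      ((p + 1 : ℂ) ^ 2)⁻¹ * ∑ a : Fin (p + 1), ∑ b : Fin (p + 1),
        (-1 : ℂ) ^ ((a : ℕ) + (b : ℕ)) * T (I ∘ a.succAbove) (J ∘ b.succAbove) *
          (c * M (I a) (J b)) := by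
    intro c M
    rw [mul_left_comm, Finset.mul_sum]
    congr 1
    refine Finset.sum_congr rfl fun a _ => ?_
    rw [Finset.mul_sum]
    refine Finset.sum_congr rfl fun b _ => ?_
    ring
  unfold wedge
  rw [h1 α A, h1 β B, ← mul_sub, ← mul_add]
  congr 1
  rw [← Finset.sum_sub_distrib, ← Finset.sum_add_distrib]
  refine Finset.sum_congr rfl fun a _ => ?_
  rw [← Finset.sum_sub_distrib, ← Finset.sum_add_distrib]
  refine Finset.sum_congr rfl fun b _ => ?_
  simp only [Matrix.add_apply, Matrix.sub_apply, Matrix.smul_apply, smul_eq_mul]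
  ring

theorem trF_lin {p : ℕ} (T : (Fin p → Fin N) → (Fin p → Fin N) → ℂ)
    (A B E : Matrix (Fin N) (Fin N) ℂ) (α β : ℝ) :
    trF (wedge T (((α : ℝ) : ℂ) • A + (((β : ℝ) : ℂ) • B - E))) =
      α * trF (wedge T A) + (β * trF (wedge T B) - trF (wedge T E)) := by
  unfold trF
  rw [Finset.mul_sum, Finset.mul_sum, ← Finset.sum_sub_distrib, ← Finset.sum_add_distrib]
  refine Finset.sum_congr rfl fun I _ => ?_
  rw [wedge_lin, Complex.add_re, Complex.sub_re, Complex.re_ofReal_mul, Complex.re_ofReal_mul]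

theorem trF_nonneg {p : ℕ} (T : (Fin p → Fin N) → (Fin p → Fin N) → ℂ) (hT : Psd T) :
    0 ≤ trF T :=
  Finset.sum_nonneg fun I _ => (Complex.le_def.1 (Pool.Agent.H95.EHD.psd_diag T hT I)).1

theorem single_psd (b : Fin N) : (Matrix.single b b (1 : ℂ)).PosSemidef := by
  rw [← Matrix.diagonal_single]
  refine Matrix.PosSemidef.diagonal fun i => ?_
  by_cases h : i = b
  · subst h; simp
  · simp [h]

theorem trO_le (hD4 : T_D4) {p : ℕ} (T : (Fin p → Fin N) → (Fin p → Fin N) → ℂ) (hT : Psd T)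
    (b : Fin N) : trO b T ≤ ((p : ℝ) + 1) ^ 2 * trF (wedge T (Matrix.single b b 1)) := by
  have hps : Psd (wedge T (Matrix.single b b 1)) := hD4 (Fin N) p T _ hT (single_psd b)
  set W := wedge T (Matrix.single b b 1) with hW
  have hd : ∀ I, 0 ≤ (W I I).re := fun I =>
    (Complex.le_def.1 (Pool.Agent.H95.EHD.psd_diag W hps I)).1
  have h1 : trF W = ∑ a : Fin N, ∑ K : Fin p → Fin N,
      (W (Fin.cons (α := fun _ => Fin N) a K) (Fin.cons (α := fun _ => Fin N) a K)).re := by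
    unfold trF
    exact Pool.Agent.H95.EHD.sum_cons fun I => (W I I).re
  have h2 : ∑ K : Fin p → Fin N,
      (W (Fin.cons (α := fun _ => Fin N) b K) (Fin.cons (α := fun _ => Fin N) b K)).re ≤
      trF W := by
    rw [h1]
    exact Finset.single_le_sum (f := fun a => ∑ K : Fin p → Fin N,
      (W (Fin.cons (α := fun _ => Fin N) a K) (Fin.cons (α := fun _ => Fin N) a K)).re)
      (fun a _ => Finset.sum_nonneg fun K _ => hd _) (Finset.mem_univ b)
  refine le_trans ?_ (mul_le_mul_of_nonneg_left h2 (by positivity))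
  unfold trO
  rw [Finset.mul_sum]
  refine Finset.sum_le_sum fun K _ => ?_
  split_ifs with hK
  · have h3 : W (Fin.cons (α := fun _ => Fin N) b K) (Fin.cons (α := fun _ => Fin N) b K) =
        ((((p : ℝ) + 1) ^ 2)⁻¹ : ℝ) * T K K := by
      rw [hW]
      unfold wedge
      have e0 : ∀ a : Fin (p + 1), a ≠ 0 → (Fin.cons (α := fun _ => Fin N) b K) a ≠ b := by
        intro a ha
        obtain ⟨a', rfl⟩ := Fin.exists_succ_eq.2 ha
        rw [Fin.cons_succ]
        exact hK a'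
      rw [Finset.sum_eq_single 0, Finset.sum_eq_single 0]
      · have e1 : (Fin.cons (α := fun _ => Fin N) b K) ∘ (0 : Fin (p + 1)).succAbove = K := by
          funext l
          simp
        rw [e1]
        simp
      · intro c _ hc
        rw [Matrix.single_apply_of_ne _ _ _ _ _ (by
          rintro ⟨_, h⟩
          exact e0 c hc h.symm), mul_zero]
      · intro h; exact absurd (Finset.mem_univ _) h
      · intro a _ ha
        refine Finset.sum_eq_zero fun c _ => ?_
        rw [Matrix.single_apply_of_ne _ _ _ _ _ (by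
          rintro ⟨h, _⟩
          exact e0 a ha h.symm), mul_zero]
      · intro h; exact absurd (Finset.mem_univ _) h
    rw [h3, Complex.re_ofReal_mul]
    have : ((p : ℝ) + 1) ^ 2 ≠ 0 := by positivity
    rw [← mul_assoc, mul_inv_cancel₀ this, one_mul]
  · exact mul_nonneg (by positivity) (hd _)

theorem re_le_tr {p : ℕ} (T : (Fin p → Fin N) → (Fin p → Fin N) → ℂ) (hT : Psd T)
    (K L : Fin p → Fin N) : |(T K L).re| ≤ trF T := by
  have hd : ∀ I, 0 ≤ (T I I).re := fun I =>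
    (Complex.le_def.1 (Pool.Agent.H95.EHD.psd_diag T hT I)).1
  have hle : ∀ I, (T I I).re ≤ trF T := fun I =>
    Finset.single_le_sum (f := fun I => (T I I).re) (fun I _ => hd I) (Finset.mem_univ I)
  have hher := Pool.Agent.H95.EHD.psd_herm T hT K L
  have h1 := hT (Pi.single K 1 + Pi.single L 1)
  have h2 := hT (Pi.single K 1 + Pi.single L (-1))
  rw [Pool.Agent.H95.EHD.form_two, hher] at h1 h2
  have e1 := (Complex.le_def.1 h1).1
  have e2 := (Complex.le_def.1 h2).1
  simp only [map_one, mul_one, one_mul, map_neg, Complex.add_re, Complex.neg_re,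
    Complex.conj_re, Complex.zero_re, mul_neg, neg_mul, neg_neg] at e1 e2
  have h3 := hle K
  have h4 := hle L
  rw [abs_le]
  constructor <;> linarith

theorem trF_one {p : ℕ} (T : (Fin p → Fin N) → (Fin p → Fin N) → ℂ) (hT : Psd T) :
    trF (wedge T 1) ≤ (N : ℝ) ^ (p + 1) * trF T := by
  have h0 := trF_nonneg T hT
  have h1 : ∀ I : Fin (p + 1) → Fin N, (wedge T (1 : Matrix (Fin N) (Fin N) ℂ) I I).re ≤
      trF T := by
    intro I
    unfold wedge
    have e1 : ((p + 1 : ℂ) ^ 2)⁻¹ = (((((p : ℝ) + 1) ^ 2)⁻¹ : ℝ) : ℂ) := by push_cast; rfl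
    rw [e1, Complex.re_ofReal_mul, Complex.re_sum]
    have h2 : ∑ a : Fin (p + 1), (∑ b : Fin (p + 1), (-1 : ℂ) ^ ((a : ℕ) + (b : ℕ)) *
        T (I ∘ a.succAbove) (I ∘ b.succAbove) *
          (1 : Matrix (Fin N) (Fin N) ℂ) (I a) (I b)).re ≤
        ((p : ℝ) + 1) ^ 2 * trF T := by
      have h3 : ∀ a : Fin (p + 1), (∑ b : Fin (p + 1), (-1 : ℂ) ^ ((a : ℕ) + (b : ℕ)) *
          T (I ∘ a.succAbove) (I ∘ b.succAbove) *
          (1 : Matrix (Fin N) (Fin N) ℂ) (I a) (I b)).re ≤ ((p : ℝ) + 1) * trF T := by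
        intro a
        rw [Complex.re_sum]
        calc _ ≤ ∑ _b : Fin (p + 1), trF T := by
              refine Finset.sum_le_sum fun b _ => ?_
              rw [Matrix.one_apply]
              have h4 := re_le_tr T hT (I ∘ a.succAbove) (I ∘ b.succAbove)
              split_ifs with hab
              · rw [mul_one]
                rcases neg_one_pow_eq_or ℂ ((a : ℕ) + (b : ℕ)) with h | h
                · rw [h, one_mul]; exact (le_abs_self _).trans h4
                · rw [h, neg_one_mul, Complex.neg_re]; exact (neg_le_abs _).trans h4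
              · rw [mul_zero, Complex.zero_re]; exact h0
          _ = _ := by
              rw [Finset.sum_const, Finset.card_univ, Fintype.card_fin, nsmul_eq_mul]
              push_cast
              ring
      calc _ ≤ ∑ _a : Fin (p + 1), ((p : ℝ) + 1) * trF T := Finset.sum_le_sum fun a _ => h3 a
        _ = _ := by
            rw [Finset.sum_const, Finset.card_univ, Fintype.card_fin, nsmul_eq_mul]
            push_cast
            ring
    have h5 : (0 : ℝ) < ((p : ℝ) + 1) ^ 2 := by positivity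
    calc _ ≤ (((p : ℝ) + 1) ^ 2)⁻¹ * (((p : ℝ) + 1) ^ 2 * trF T) := by gcongr
      _ = trF T := by field_simp
  calc trF (wedge T 1) ≤ ∑ _I : Fin (p + 1) → Fin N, trF T := Finset.sum_le_sum fun I _ => h1 I
    _ = _ := by
        rw [Finset.sum_const, Finset.card_univ, nsmul_eq_mul]
        simp

/-- the pointwise inequality -/
theorem slab_tr (hW4 : T_W4) (hW9 : T_W9) (hD13 : T_D13) (hL5 : T_L5) (hD4 : T_D4) {k p : ℕ}
    (T : (Fin p → Fin (k + 1)) → (Fin p → Fin (k + 1)) → ℂ) (hT : Psd T)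
    (b : Fin (k + 1)) (η : ℝ) (hη : 0 < η) (z : Fin (k + 1) → ℂ)
    (hz1 : 1 / 4 ≤ nsq z) (hz2 : nsq z ≤ 4) (hzb : ‖z b‖ ≤ 2 * η) :
    trO b T ≤ ((p : ℝ) + 1) ^ 2 * (η ^ 2 * (1056 * trF (wedge T (hessR (wH b η) z)) +
      64 * ((k + 1 : ℕ) : ℝ) ^ (p + 1) * trF T)) := by
  have h1 := slab_psd hW4 hW9 hD13 hL5 b η hη z hz1 hz2 hzb
  have h2 := trF_nonneg _ (hD4 (Fin (k + 1)) p T _ hT h1)
  rw [trF_lin] at h2
  have h3 := trO_le hD4 T hT b
  have h4 := trF_one T hT
  have h5 : trF (wedge T (Matrix.single b b 1)) ≤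
      η ^ 2 * (1056 * trF (wedge T (hessR (wH b η) z)) +
      64 * ((k + 1 : ℕ) : ℝ) ^ (p + 1) * trF T) := by
    have : η ^ 2 * 64 * trF (wedge T 1) ≤
        η ^ 2 * 64 * (((k + 1 : ℕ) : ℝ) ^ (p + 1) * trF T) := by gcongr
    linarith
  exact h3.trans (mul_le_mul_of_nonneg_left h5 (by positivity))

/-- forms of top degree which kill a vector -/
theorem top_zero (W : (Fin N → Fin N) → (Fin N → Fin N) → ℂ) (y : Fin N → ℂ) (hy : y ≠ 0)
    (halt : ∀ (π : Equiv.Perm (Fin N)) I J, W (I ∘ π) J = ((Equiv.Perm.sign π : ℤ) : ℂ) * W I J)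
    (hk : ∀ I J (j : Fin N), ∑ a, y a * W (Function.update I j a) J = 0) (I J : Fin N → Fin N) :
    W I J = 0 := by
  have h0 : ∀ I : Fin N → Fin N, ∀ i j, i ≠ j → I i = I j → W I J = 0 := by
    intro I i j hij h
    have h1 := halt (Equiv.swap i j) I J
    have h2 : I ∘ (Equiv.swap i j) = I := by
      funext l
      rw [Function.comp_apply]
      by_cases hi : l = i
      · rw [hi, Equiv.swap_apply_left, h]
      · by_cases hj : l = j
        · rw [hj, Equiv.swap_apply_right, h]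
        · rw [Equiv.swap_apply_of_ne_of_ne hi hj]
    rw [h2, Equiv.Perm.sign_swap hij] at h1
    simp only [Units.val_neg, Units.val_one, Int.cast_neg, Int.cast_one, neg_mul, one_mul] at h1
    exact self_eq_neg.1 h1
  by_cases hinj : Function.Injective I
  · obtain ⟨c, hc⟩ := Function.ne_iff.1 hy
    have hsurj := Finite.injective_iff_surjective.1 hinj
    obtain ⟨j, hj⟩ := hsurj c
    have h1 := hk I J j
    rw [Finset.sum_eq_single c] at h1
    · rw [← hj, Function.update_eq_self] at h1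
      exact (mul_eq_zero.1 h1).resolve_left (by rw [hj]; exact hc)
    · intro a _ ha
      obtain ⟨j', hj'⟩ := hsurj a
      have hne : j ≠ j' := by
        rintro rfl
        exact ha (hj'.symm.trans hj)
      rw [h0 _ j j' hne (by
        rw [Function.update_self, Function.update_of_ne hne.symm, hj']), mul_zero]
    · intro h; exact absurd (Finset.mem_univ c) h
  · unfold Function.Injective at hinj
    push Not at hinj
    obtain ⟨i, j, h, hij⟩ := hinj
    exact h0 I i j hij h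

/-- the shell -/
def Shl (N : ℕ) : Set (Fin N → ℂ) := {Y : Fin N → ℂ | 1 / 2 ≤ nrm Y ∧ nrm Y ≤ 2}

theorem cont_nsq : Continuous (nsq : (Fin N → ℂ) → ℝ) := by
  unfold nsq
  fun_prop

theorem meas_shl : MeasurableSet (Shl N) := by
  have h : Continuous (nrm : (Fin N → ℂ) → ℝ) := Real.continuous_sqrt.comp cont_nsq
  exact (measurableSet_le measurable_const h.measurable).inter
    (measurableSet_le h.measurable measurable_const)

theorem shl_nsq {Y : Fin N → ℂ} (hY : Y ∈ Shl N) : 1 / 4 ≤ nsq Y ∧ nsq Y ≤ 4 := by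
  have h0 := nsq_nonneg' Y
  have h1 : nrm Y ^ 2 = nsq Y := Real.sq_sqrt h0
  obtain ⟨h2, h3⟩ := hY
  constructor <;> nlinarith

theorem shl_ne {Y : Fin N → ℂ} (hY : Y ∈ Shl N) : Y ≠ 0 := by
  rintro rfl
  have := (shl_nsq hY).1
  simp [nsq] at this
  linarith

theorem shl_ell {Y : Fin N → ℂ} (hY : Y ∈ Shl N) :
    ell Y ∈ Set.Icc (Real.log (1 / 2)) (Real.log 2) := by
  obtain ⟨h1, h2⟩ := shl_nsq hY
  have e : ell Y = (1 / 2) * Real.log (nsq Y) := rfl
  have e1 : Real.log (1 / 4) ≤ Real.log (nsq Y) := Real.log_le_log (by norm_num) h1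
  have e2 : Real.log (nsq Y) ≤ Real.log 4 := Real.log_le_log (by linarith) h2
  have e3 : Real.log 4 = 2 * Real.log 2 := by
    rw [← Real.log_rpow (by norm_num)]; norm_num
  have e4 : Real.log (1 / 4) = - Real.log 4 := by rw [one_div, Real.log_inv]
  have e5 : Real.log (1 / 2) = - Real.log 2 := by rw [one_div, Real.log_inv]
  rw [Set.mem_Icc, e, e5]
  constructor <;> linarith

theorem meas_trF {p : ℕ} (S : Form (Fin N) p) (hS : ProjForm S) :
    Measurable fun Y => trF (S Y) := by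
  have h1 : ContinuousOn (fun Y => trF (S Y)) {0}ᶜ := by
    unfold trF
    refine continuousOn_finsetSum _ fun I _ => ?_
    exact Complex.continuous_re.comp_continuousOn (hS.cp.smooth I I).continuousOn
  exact measurable_of_continuousOn_compl_singleton 0 h1

theorem shell (hRTR : T_RTR) (hP1 : T_P1) (hP3 : T_P3) (hS4 : T_S4) (hS5 : T_S5) (hL3 : T_L3)
    (p q : ℕ) (hN : p + q + 1 = N) : ∃ C : ℝ, 0 < C ∧ ∀ S : Form (Fin N) p, ProjForm S →
    ∫⁻ Y in Shl N, ENNReal.ofReal (trF (S Y)) ≤ ENNReal.ofReal (C * mass q S) := by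
  obtain ⟨C0, hC0, hR⟩ := hRTR N p q hN
  have hpot : Pot (ell : (Fin N → ℂ) → ℝ) := (hL3 N).1
  have hLH : LH 1 (ell : (Fin N → ℂ) → ℝ) := ⟨hpot.smooth, fun l z hl hz => by
    rw [hpot.loghom l z hl hz, one_mul]⟩
  have hlog : 0 < Real.log 2 := Real.log_pos (by norm_num)
  refine ⟨C0 * 4 ^ (N - p) * (2 * Real.log 2), by positivity, fun S hS => ?_⟩
  set ψ : (Fin N → ℂ) → ℝ := Q S (fun _ : Fin q => ell) with hψ
  obtain ⟨hc, hh, _⟩ := hS5 N p q S (fun _ => ell) (fun _ => 1) hN hS (fun _ => hLH)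
  have hψm : Measurable ψ := measurable_of_continuousOn_compl_singleton 0 hc
  have hψ0 : ∀ z, z ≠ 0 → 0 ≤ ψ z := (hP3 N p q S _ hN hS fun _ => hpot).1
  have hψi : IntegrableOn ψ {z : Fin N → ℂ | 0 ≤ ell z ∧ ell z < 1} := by
    have := (hP1 N p q S (fun _ => ell) (fun _ => 1) hN hS (fun _ => hLH)).1 (fun _ => 1) 1
      measurable_const (fun z _ => by simp)
    simpa using this
  have hψh : ∀ (r : ℝ) (z : Fin N → ℂ), 0 < r → z ≠ 0 →
      ψ ((r : ℂ) • z) = (r ^ (2 * N))⁻¹ * ψ z := by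
    intro r z hr hz
    have := hh (r : ℂ) z (by exact_mod_cast hr.ne') hz
    rw [Complex.norm_real, Real.norm_eq_abs, abs_of_pos hr] at this
    exact this
  set θ : ℝ → ℝ := Set.indicator (Set.Icc (Real.log (1 / 2)) (Real.log 2)) fun _ => 1 with hθ
  have hθm : Measurable θ := measurable_const.indicator measurableSet_Icc
  have hθi : Integrable θ := by
    rw [hθ, integrable_indicator_iff measurableSet_Icc]
    exact integrableOn_const (by simp)
  have hθv : ∫ t, θ t = 2 * Real.log 2 := by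
    rw [hθ, integral_indicator measurableSet_Icc]
    simp only [integral_const, MeasurableSet.univ, measureReal_restrict_apply, Set.univ_inter,
      smul_eq_mul, mul_one]
    rw [Real.volume_real_Icc_of_le (Real.log_le_log (by norm_num) (by norm_num)), one_div,
      Real.log_inv]
    ring
  obtain ⟨hint, hval⟩ := hS4 N ψ (fun _ => 0) 1 θ (by omega) one_pos hψm measurable_const hψi
    hψh (fun _ _ _ _ => rfl) hθm hθi
  have hI : Iint ψ = mass q S := by
    unfold mass pair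
    simp only [one_mul]
    rfl
  rw [hθv, hI, inv_one, one_mul] at hval
  have hae : ∀ᵐ z : Fin N → ℂ, z ≠ 0 := by
    have hN0 : Nonempty (Fin N) := ⟨⟨0, by omega⟩⟩
    rw [ae_iff]
    simp
  have hθ0 : ∀ t, 0 ≤ θ t := fun t => Set.indicator_nonneg (fun _ _ => zero_le_one) t
  calc ∫⁻ Y in Shl N, ENNReal.ofReal (trF (S Y))
      ≤ ∫⁻ Y in Shl N, ENNReal.ofReal (C0 * 4 ^ (N - p) * (ψ Y * θ (1 * ell Y + 0))) := by
        refine setLIntegral_mono' meas_shl fun Y hY => ENNReal.ofReal_le_ofReal ?_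
        have h1 := hR S hS Y (shl_ne hY)
        have h2 : θ (1 * ell Y + 0) = 1 := by
          rw [one_mul, add_zero, hθ, Set.indicator_of_mem (shl_ell hY)]
        rw [h2, mul_one]
        refine h1.trans ?_
        have h3 := (shl_nsq hY).2
        have h4 := nsq_nonneg' Y
        have h5 := hψ0 Y (shl_ne hY)
        gcongr
    _ ≤ ∫⁻ Y, ENNReal.ofReal (C0 * 4 ^ (N - p) * (ψ Y * θ (1 * ell Y + 0))) :=
        setLIntegral_le_lintegral _ _
    _ = ENNReal.ofReal (∫ Y, C0 * 4 ^ (N - p) * (ψ Y * θ (1 * ell Y + 0))) := by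
        rw [ofReal_integral_eq_lintegral_ofReal (hint.const_mul _)]
        filter_upwards [hae] with Y hY
        have h5 := hψ0 Y hY
        have h6 := hθ0 (1 * ell Y + 0)
        positivity
    _ = _ := by
        rw [integral_const_mul, hval, mul_assoc (C0 * 4 ^ (N - p))]

theorem pf_MSD (hRTR : T_RTR) (hS4 : T_S4) (hS5 : T_S5) (hP1 : T_P1) (hP3 : T_P3)
    (hP6 : T_P6) (hD4 : T_D4) (hD6 : T_D6) (hD13 : T_D13) (hL3 : T_L3) (hL5 : T_L5)
    (hW4 : T_W4) (hW9 : T_W9) : T_MSD := by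
  intro k s q hk
  obtain ⟨C1, hC1, h1⟩ := shell (N := k + 1) hRTR hP1 hP3 hS4 hS5 hL3 (s + 1) q (by omega)
  -- the wedge with the Hessian
  have h2 : ∃ C2 : ℝ, 0 < C2 ∧ ∀ S : Form (Fin (k + 1)) (s + 1), ProjForm S →
      ∀ (b : Fin (k + 1)) (η : ℝ), 0 < η →
      ∫⁻ Y in Shl (k + 1), ENNReal.ofReal (trF (wedge (S Y) (hessR (wH b η) Y))) ≤
        ENNReal.ofReal (C2 * mass q S) := by
    have hpot : ∀ (b : Fin (k + 1)) (η : ℝ), 0 < η → Pot (wH (k := k) b η) := by
      intro b η hη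
      have := hL5 (k + 1) 1 (MvPolynomial.X b) η le_rfl (MvPolynomial.isHomogeneous_X ℂ b) hη
      convert this using 2
      unfold wH
      simp
    have hpe : Pot (ell : (Fin (k + 1) → ℂ) → ℝ) := (hL3 (k + 1)).1
    rcases q with _ | q'
    · obtain rfl : k = s + 1 := by omega
      refine ⟨1, one_pos, fun S hS b η hη => ?_⟩
      have hW := hD6 _ _ S (wH b η) hS (hpot b η hη)
      have hz : ∫⁻ Y in Shl (s + 1 + 1),
          ENNReal.ofReal (trF (wedge (S Y) (hessR (wH b η) Y))) = 0 := by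
        have e0 : ∫⁻ _Y in Shl (s + 1 + 1), (0 : ENNReal) = 0 := lintegral_zero
        rw [← e0]
        refine setLIntegral_congr_fun meas_shl fun Y hY => ?_
        have hY0 := shl_ne hY
        have : trF (wedge (S Y) (hessR (wH b η) Y)) = 0 := by
          refine Finset.sum_eq_zero fun I _ => ?_
          rw [top_zero (wedge (S Y) (hessR (wH b η) Y)) Y hY0 (hW.cp.altL Y hY0)
            (hW.basicL Y hY0) I I, Complex.zero_re]
        simp only [this, ENNReal.ofReal_zero]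
      rw [hz]
      exact zero_le
    · obtain ⟨C2, hC2, h2⟩ := shell (N := k + 1) hRTR hP1 hP3 hS4 hS5 hL3 (s + 1 + 1) q'
        (by omega)
      refine ⟨C2, hC2, fun S hS b η hη => ?_⟩
      have hW := hD6 _ _ S (wH b η) hS (hpot b η hη)
      have h3 := h2 (fun z => wedge (S z) (hessR (wH b η) z)) hW
      have h4 : mass q' (fun z => wedge (S z) (hessR (wH b η) z)) = mass (q' + 1) S := by
        have e1 := hP6 (k + 1) (s + 1) q' S (wH b η) (fun _ => ell) (fun _ => 1)
        have e2 := (hP3 (k + 1) (s + 1) (q' + 1) S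
          (Fin.cases (motive := fun _ => (Fin (k + 1) → ℂ) → ℝ) (wH b η) (fun _ => ell))
          (by omega) hS (fun j => by
            refine Fin.cases ?_ (fun j => ?_) j
            · exact hpot b η hη
            · exact hpe)).2.2.1
        exact e1.trans e2
      rw [h4] at h3
      exact h3
  obtain ⟨C2, hC2, h2⟩ := h2
  set A1 : ℝ := (((s + 1 : ℕ) : ℝ) + 1) ^ 2 * 1056 with hA1
  set A2 : ℝ := (((s + 1 : ℕ) : ℝ) + 1) ^ 2 * (64 * ((k + 1 : ℕ) : ℝ) ^ (s + 1 + 1)) with hA2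
  have hA10 : 0 < A1 := by positivity
  have hA20 : 0 < A2 := by positivity
  refine ⟨C1 + (A1 * C2 + A2 * C1), by positivity, fun S hS => ?_⟩
  have hm : 0 ≤ mass q S := by
    have e := (hP3 (k + 1) (s + 1) q S (fun _ => ell) (by omega) hS
      (fun _ => (hL3 (k + 1)).1)).2.1 (fun _ => 1) (fun _ _ => zero_le_one)
    exact e
  refine ⟨(h1 S hS).trans (ENNReal.ofReal_le_ofReal ?_), fun b η hη hη1 => ?_⟩
  · have : 0 ≤ (A1 * C2 + A2 * C1) * mass q S := by positivity
    linarith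
  have hsub : {Y : Fin (k + 1) → ℂ | (1 / 2 ≤ nrm Y ∧ nrm Y ≤ 2) ∧
      (η / 2 ≤ ‖Y b‖ ∧ ‖Y b‖ ≤ 2 * η)} ⊆ Shl (k + 1) := fun Y hY => hY.1
  have hRm : MeasurableSet {Y : Fin (k + 1) → ℂ | (1 / 2 ≤ nrm Y ∧ nrm Y ≤ 2) ∧
      (η / 2 ≤ ‖Y b‖ ∧ ‖Y b‖ ≤ 2 * η)} := by
    have hc : Measurable fun Y : Fin (k + 1) → ℂ => ‖Y b‖ := by fun_prop
    exact (meas_shl (N := k + 1)).inter ((measurableSet_le measurable_const hc).inter
      (measurableSet_le hc measurable_const))
  have hpt : ∀ Y ∈ {Y : Fin (k + 1) → ℂ | (1 / 2 ≤ nrm Y ∧ nrm Y ≤ 2) ∧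
      (η / 2 ≤ ‖Y b‖ ∧ ‖Y b‖ ≤ 2 * η)}, ENNReal.ofReal (trO b (S Y)) ≤
      ENNReal.ofReal (η ^ 2 * A1) * ENNReal.ofReal (trF (wedge (S Y) (hessR (wH b η) Y))) +
      ENNReal.ofReal (η ^ 2 * A2) * ENNReal.ofReal (trF (S Y)) := by
    intro Y hY
    have hY1 : Y ∈ Shl (k + 1) := hY.1
    obtain ⟨e1, e2⟩ := shl_nsq hY1
    have e3 := slab_tr hW4 hW9 hD13 hL5 hD4 (S Y) (hS.cp.psd Y (shl_ne hY1)) b η hη Y e1 e2
      hY.2.2
    have e4 : trO b (S Y) ≤ η ^ 2 * A1 * trF (wedge (S Y) (hessR (wH b η) Y)) +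
        η ^ 2 * A2 * trF (S Y) := by
      refine e3.trans (le_of_eq ?_)
      rw [hA1, hA2]
      ring
    refine (ENNReal.ofReal_le_ofReal e4).trans (ENNReal.ofReal_add_le.trans (le_of_eq ?_))
    rw [ENNReal.ofReal_mul (p := η ^ 2 * A1) (by positivity),
      ENNReal.ofReal_mul (p := η ^ 2 * A2) (by positivity)]
  calc _ ≤ ∫⁻ Y in {Y : Fin (k + 1) → ℂ | (1 / 2 ≤ nrm Y ∧ nrm Y ≤ 2) ∧
        (η / 2 ≤ ‖Y b‖ ∧ ‖Y b‖ ≤ 2 * η)},
        (ENNReal.ofReal (η ^ 2 * A1) * ENNReal.ofReal (trF (wedge (S Y) (hessR (wH b η) Y))) +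
        ENNReal.ofReal (η ^ 2 * A2) * ENNReal.ofReal (trF (S Y))) := setLIntegral_mono' hRm hpt
    _ ≤ ∫⁻ Y in Shl (k + 1),
        (ENNReal.ofReal (η ^ 2 * A1) * ENNReal.ofReal (trF (wedge (S Y) (hessR (wH b η) Y))) +
        ENNReal.ofReal (η ^ 2 * A2) * ENNReal.ofReal (trF (S Y))) := lintegral_mono_set hsub
    _ = ENNReal.ofReal (η ^ 2 * A1) *
          (∫⁻ Y in Shl (k + 1), ENNReal.ofReal (trF (wedge (S Y) (hessR (wH b η) Y)))) +
        ENNReal.ofReal (η ^ 2 * A2) * ∫⁻ Y in Shl (k + 1), ENNReal.ofReal (trF (S Y)) := by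
        rw [lintegral_add_right _ ((meas_trF S hS).ennreal_ofReal.const_mul _),
          lintegral_const_mul' _ _ ENNReal.ofReal_ne_top,
          lintegral_const_mul' _ _ ENNReal.ofReal_ne_top]
    _ ≤ ENNReal.ofReal (η ^ 2 * A1) * ENNReal.ofReal (C2 * mass q S) +
        ENNReal.ofReal (η ^ 2 * A2) * ENNReal.ofReal (C1 * mass q S) :=
        add_le_add (mul_le_mul_right (h2 S hS b η hη) _) (mul_le_mul_right (h1 S hS) _)
    _ = ENNReal.ofReal (η ^ 2 * A1 * (C2 * mass q S) + η ^ 2 * A2 * (C1 * mass q S)) := by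
        rw [← ENNReal.ofReal_mul (by positivity), ← ENNReal.ofReal_mul (by positivity),
          ← ENNReal.ofReal_add (by positivity) (by positivity)]
    _ ≤ _ := by
        refine ENNReal.ofReal_le_ofReal ?_
        have : 0 ≤ C1 * η ^ 2 * mass q S := by positivity
        linarith

end Pool.Agent.H95.EM
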