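import Pool.Agent.H92.EM.TA
import Pool.Agent.H95.EHD.RPD

/-!
Row MSD of emd_modules, part 1: the Hessian of `wH b δ` and the slab inequality.
-/

set_option autoImplicit false

namespace Pool.Agent.H95.EM

open scoped BigOperators ComplexConjugate ContDiff ComplexOrder
open MeasureTheory Pool.Agent.H92.EQ Pool.Agent.H92.EM

theorem nsq_nonneg' {n : ℕ} (z : Fin n → ℂ) : 0 ≤ nsq z :=
  Finset.sum_nonneg fun _ _ => by positivity

theorem nsq_pos' {n : ℕ} {z : Fin n → ℂ} (hz : z ≠ 0) : 0 < nsq z := by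
  obtain ⟨i, hi⟩ := Function.ne_iff.1 hz
  have h1 : ‖z i‖ ^ 2 ≤ nsq z :=
    Finset.single_le_sum (f := fun i => ‖z i‖ ^ 2) (fun _ _ => by positivity) (Finset.mem_univ i)
  have h2 : 0 < ‖z i‖ ^ 2 := by
    have : 0 < ‖z i‖ := norm_pos_iff.2 hi
    positivity
  linarith

/-- completing the square -/
theorem nsq_sub {n : ℕ} (u y : Fin n → ℂ) (hy : 0 < nsq y) :
    nsq u / nsq y - ‖∑ a, u a * conj (y a)‖ ^ 2 / nsq y ^ 2 =
      nsq (fun a => u a - (∑ a, u a * conj (y a)) / (nsq y : ℂ) * y a) / nsq y := by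
  set σ : ℂ := ∑ a, u a * conj (y a) with hσ
  set t : ℂ := σ / (nsq y : ℂ) with ht
  have hyc : (nsq y : ℂ) ≠ 0 := by exact_mod_cast hy.ne'
  have h1 : ∀ a, ‖u a - t * y a‖ ^ 2 =
      ‖u a‖ ^ 2 - 2 * (conj t * (u a * conj (y a))).re + ‖t‖ ^ 2 * ‖y a‖ ^ 2 := by
    intro a
    rw [← Complex.normSq_eq_norm_sq, ← Complex.normSq_eq_norm_sq, ← Complex.normSq_eq_norm_sq,
      ← Complex.normSq_eq_norm_sq]
    simp only [Complex.normSq_apply, Complex.sub_re, Complex.sub_im, Complex.mul_re,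
      Complex.mul_im, Complex.conj_re, Complex.conj_im]
    ring
  have h2 : nsq (fun a => u a - t * y a) = nsq u - 2 * (conj t * σ).re + ‖t‖ ^ 2 * nsq y := by
    unfold nsq
    rw [Finset.sum_congr rfl fun a _ => h1 a, Finset.sum_add_distrib, Finset.sum_sub_distrib,
      ← Finset.mul_sum, ← Finset.mul_sum]
    congr 3
    rw [hσ, Finset.mul_sum, Complex.re_sum]
  have h3 : σ = t * (nsq y : ℂ) := by rw [ht]; field_simp
  have h4 : (conj t * σ).re = ‖t‖ ^ 2 * nsq y := by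
    rw [h3]
    have : conj t * (t * (nsq y : ℂ)) = ((‖t‖ ^ 2 * nsq y : ℝ) : ℂ) := by
      push_cast
      rw [← Complex.ofReal_pow, ← Complex.normSq_eq_norm_sq, Complex.normSq_eq_conj_mul_self]
      ring
    rw [this, Complex.ofReal_re]
  have h5 : ‖σ‖ ^ 2 = ‖t‖ ^ 2 * nsq y ^ 2 := by
    rw [h3, norm_mul, Complex.norm_real, Real.norm_eq_abs, mul_pow, sq_abs]
  rw [h2, h4, h5]
  field_simp
  ring

/-- the Levi form of `wH b δ` -/
theorem hess_quad (hW4 : T_W4) (hW9 : T_W9) (hD13 : T_D13) {k : ℕ} (b : Fin (k + 1)) (δ : ℝ)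
    (hδ : 0 < δ) (z : Fin (k + 1) → ℂ) (hz : z ≠ 0) (v : Fin (k + 1) → ℂ) : ∃ t : ℂ,
    ∑ a, ∑ c, v a * hessR (wH b δ) z a c * conj (v c) =
      (((1 / 2) * ((‖v b - t * z b‖ ^ 2 + δ ^ 2 * nsq (fun a => v a - t * z a)) /
        (‖z b‖ ^ 2 + δ ^ 2 * nsq z)) : ℝ) : ℂ) := by
  set s : Fin (k + 1) → ℝ := fun a => Real.sqrt (δ ^ 2 + if a = b then 1 else 0) with hs
  have hs0 : ∀ a, 0 < δ ^ 2 + (if a = b then (1 : ℝ) else 0) := by
    intro a
    split_ifs <;> positivity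
  have hs2 : ∀ a, s a ^ 2 = δ ^ 2 + if a = b then 1 else 0 := by
    intro a
    rw [hs]
    exact Real.sq_sqrt (hs0 a).le
  have hsp : ∀ a, 0 < s a := fun a => Real.sqrt_pos.2 (hs0 a)
  set A : Matrix (Fin (k + 1)) (Fin (k + 1)) ℂ := Matrix.diagonal fun a => (s a : ℂ) with hA
  have hAv : ∀ w : Fin (k + 1) → ℂ, A.mulVec w = fun a => (s a : ℂ) * w a := by
    intro w
    funext a
    rw [hA, Matrix.mulVec_diagonal]
  have hnA : ∀ w : Fin (k + 1) → ℂ, nsq (fun a => (s a : ℂ) * w a) =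
      ‖w b‖ ^ 2 + δ ^ 2 * nsq w := by
    intro w
    unfold nsq
    have : ∀ a, ‖(s a : ℂ) * w a‖ ^ 2 = δ ^ 2 * ‖w a‖ ^ 2 + if a = b then ‖w a‖ ^ 2 else 0 := by
      intro a
      rw [norm_mul, Complex.norm_real, Real.norm_eq_abs, mul_pow, sq_abs, hs2]
      split_ifs <;> ring
    rw [Finset.sum_congr rfl fun a _ => this a, Finset.sum_add_distrib, ← Finset.mul_sum,
      Finset.sum_ite_eq' Finset.univ b, if_pos (Finset.mem_univ b)]
    ring
  have hev : ∀ w, ev (lin A) w = fun a => (s a : ℂ) * w a := by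
    intro w
    rw [(hD13 (k + 1) A A w).1, hAv]
  have hw : wH b δ = fun w : Fin (k + 1) → ℂ => ell (ev (lin A) w) := by
    funext w
    unfold wH ell
    rw [hev, hnA]
  set y : Fin (k + 1) → ℂ := fun a => (s a : ℂ) * z a with hy
  have hy0 : y ≠ 0 := by
    obtain ⟨i, hi⟩ := Function.ne_iff.1 hz
    refine Function.ne_iff.2 ⟨i, ?_⟩
    rw [hy]
    exact mul_ne_zero (by exact_mod_cast (hsp i).ne') hi
  have hcd : ContDiffAt ℝ 2 (fun w : Fin (k + 1) → ℂ => ((ell w : ℝ) : ℂ)) (ev (lin A) z) := by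
    rw [hev]
    have h1 : ContDiffAt ℝ ∞ (ell : (Fin (k + 1) → ℂ) → ℝ) y :=
      ((hW9 (Fin (k + 1))).1 y hy0).contDiffAt (isOpen_compl_singleton.mem_nhds hy0)
    exact (Complex.ofRealCLM.contDiff.contDiffAt.comp y h1).of_le
      (WithTop.coe_le_coe.mpr (le_top : (2 : ℕ∞) ≤ ⊤))
  have hH : ∀ a c, hessR (wH b δ) z a c = (s a : ℂ) * (s c : ℂ) * hessR ell y a c := by
    intro a c
    have h1 := hW4 (Fin (k + 1)) (Fin (k + 1)) (lin A) (fun w => ((ell w : ℝ) : ℂ)) z hcd a c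
    have h2 : hessR (wH b δ) z a c =
        hess (fun w => (fun w : Fin (k + 1) → ℂ => ((ell w : ℝ) : ℂ)) (ev (lin A) w)) z a c := by
      rw [hw]; rfl
    rw [h2, h1, (hD13 (k + 1) A A z).2.1, hev]
    have h3 : ∀ i j, A i j = if i = j then (s i : ℂ) else 0 := fun i j => by
      rw [hA, Matrix.diagonal_apply]
    rw [Finset.sum_eq_single a, Finset.sum_eq_single c]
    · rw [h3 a a, h3 c c, if_pos rfl, if_pos rfl, Complex.conj_ofReal]
      rfl
    · intro j _ hj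
      rw [h3 j c, if_neg hj, map_zero]; ring
    · intro h; exact absurd (Finset.mem_univ c) h
    · intro i _ hi
      refine Finset.sum_eq_zero fun j _ => ?_
      rw [h3 i a, if_neg hi]; ring
    · intro h; exact absurd (Finset.mem_univ a) h
  have hyp : 0 < nsq y := nsq_pos' hy0
  refine ⟨(∑ a, ((s a : ℂ) * v a) * conj (y a)) / (nsq y : ℂ), ?_⟩
  set t : ℂ := (∑ a, ((s a : ℂ) * v a) * conj (y a)) / (nsq y : ℂ) with ht
  have h1 : ∑ a, ∑ c, v a * hessR (wH b δ) z a c * conj (v c) =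
      ∑ a, ∑ c, ((s a : ℂ) * v a) * hessR ell y a c * conj ((s c : ℂ) * v c) := by
    refine Finset.sum_congr rfl fun a _ => Finset.sum_congr rfl fun c _ => ?_
    rw [hH a c, map_mul, Complex.conj_ofReal]
    ring
  rw [h1, ((hW9 (Fin (k + 1))).2 y hy0).2.2.2.2 (fun a => (s a : ℂ) * v a)]
  rw [nsq_sub (fun a => (s a : ℂ) * v a) y hyp, ← ht]
  have h2 : (fun a => (s a : ℂ) * v a - t * y a) = fun a => (s a : ℂ) * (v a - t * z a) := by
    funext a
    rw [hy]; ring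
  rw [h2, hnA (fun a => v a - t * z a), hy, hnA z]

/-- the slab inequality for the Levi form -/
theorem slab_quad {n : ℕ} (b : Fin n) (η : ℝ) (hη : 0 < η) (z v : Fin n → ℂ)
    (hz1 : 1 / 4 ≤ nsq z) (hz2 : nsq z ≤ 4) (hzb : ‖z b‖ ≤ 2 * η) (t : ℂ) (L : ℝ)
    (hL : L = (1 / 2) * ((‖v b - t * z b‖ ^ 2 + η ^ 2 * nsq (fun a => v a - t * z a)) /
        (‖z b‖ ^ 2 + η ^ 2 * nsq z))) :
    ‖v b‖ ^ 2 ≤ η ^ 2 * (1056 * L + 64 * nsq v) := by
  set P : ℝ := ‖v b - t * z b‖ ^ 2 with hP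
  set R : ℝ := nsq (fun a => v a - t * z a) with hR
  set g : ℝ := ‖z b‖ ^ 2 + η ^ 2 * nsq z with hg
  have hP0 : 0 ≤ P := by positivity
  have hR0 : 0 ≤ R := nsq_nonneg' _
  have hv0 : 0 ≤ nsq v := nsq_nonneg' _
  have hη2 : 0 < η ^ 2 := by positivity
  have hzb2 : ‖z b‖ ^ 2 ≤ 4 * η ^ 2 := by
    have := norm_nonneg (z b)
    nlinarith
  have hg0 : 0 < g := by
    have : 0 ≤ ‖z b‖ ^ 2 := by positivity
    have : 0 < η ^ 2 * nsq z := by
      have : 0 < nsq z := by linarith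
      positivity
    linarith
  have hg8 : g ≤ 8 * η ^ 2 := by
    have : η ^ 2 * nsq z ≤ η ^ 2 * 4 := by gcongr
    linarith
  have hPR : P + η ^ 2 * R = 2 * g * L := by
    rw [hL]
    field_simp
  have hL0 : 0 ≤ L := by
    rw [hL]
    positivity
  have hgL : 2 * g * L ≤ 16 * η ^ 2 * L := by
    have : g * L ≤ 8 * η ^ 2 * L := by gcongr
    linarith
  have hP1 : P ≤ 16 * η ^ 2 * L := by
    have : 0 ≤ η ^ 2 * R := by positivity
    linarith
  have hR1 : R ≤ 16 * L := by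
    have h1 : η ^ 2 * R ≤ η ^ 2 * (16 * L) := by linarith
    exact le_of_mul_le_mul_left h1 hη2
  have hpar : ∀ x y : ℂ, ‖y‖ ^ 2 ≤ 2 * ‖x‖ ^ 2 + 2 * ‖x - y‖ ^ 2 := by
    intro x y
    have h1 : ‖y‖ ≤ ‖x‖ + ‖x - y‖ := by
      have : y = x - (x - y) := by ring
      calc ‖y‖ = ‖x - (x - y)‖ := by rw [← this]
        _ ≤ _ := norm_sub_le _ _
    have h2 := norm_nonneg y
    have h3 := sq_nonneg (‖x‖ - ‖x - y‖)
    nlinarith
  have ht : ‖t‖ ^ 2 * nsq z ≤ 2 * nsq v + 2 * R := by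
    rw [hR]
    unfold nsq
    rw [Finset.mul_sum, Finset.mul_sum, Finset.mul_sum, ← Finset.sum_add_distrib]
    refine Finset.sum_le_sum fun a _ => ?_
    have := hpar (v a) (t * z a)
    rw [norm_mul, mul_pow] at this
    exact this
  have ht2 : ‖t‖ ^ 2 ≤ 8 * nsq v + 128 * L := by
    have h1 : ‖t‖ ^ 2 * (1 / 4) ≤ ‖t‖ ^ 2 * nsq z := by gcongr
    linarith
  have h1 : ‖v b‖ ^ 2 ≤ 2 * (‖t‖ ^ 2 * ‖z b‖ ^ 2) + 2 * P := by
    have := hpar (t * z b) (v b)
    rw [norm_mul, mul_pow, norm_sub_rev] at this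
    exact this
  have h2 : ‖t‖ ^ 2 * ‖z b‖ ^ 2 ≤ (8 * nsq v + 128 * L) * (4 * η ^ 2) := by gcongr
  nlinarith

/-- the slab inequality for matrices -/
theorem slab_psd (hW4 : T_W4) (hW9 : T_W9) (hD13 : T_D13) (hL5 : T_L5) {k : ℕ}
    (b : Fin (k + 1)) (η : ℝ) (hη : 0 < η) (z : Fin (k + 1) → ℂ)
    (hz1 : 1 / 4 ≤ nsq z) (hz2 : nsq z ≤ 4) (hzb : ‖z b‖ ≤ 2 * η) :
    (((η ^ 2 * 1056 : ℝ) : ℂ) • hessR (wH b η) z +
      (((η ^ 2 * 64 : ℝ) : ℂ) • (1 : Matrix (Fin (k + 1)) (Fin (k + 1)) ℂ) -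
        Matrix.single b b 1)).PosSemidef := by
  have hz : z ≠ 0 := by
    rintro rfl
    simp [nsq] at hz1
    linarith
  have hpot : Pot (wH (k := k) b η) := by
    have := hL5 (k + 1) 1 (MvPolynomial.X b) η le_rfl (MvPolynomial.isHomogeneous_X ℂ b) hη
    convert this using 2
    unfold wH
    simp
  have hher : (hessR (wH b η) z).IsHermitian := (hpot.psh z hz).1
  refine Matrix.PosSemidef.of_dotProduct_mulVec_nonneg ?_ fun x => ?_
  · refine Matrix.IsHermitian.add ?_ (Matrix.IsHermitian.sub ?_ ?_)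
    · unfold Matrix.IsHermitian
      rw [Matrix.conjTranspose_smul, hher.eq]
      congr 1
      exact Complex.conj_ofReal _
    · unfold Matrix.IsHermitian
      rw [Matrix.conjTranspose_smul, Matrix.conjTranspose_one]
      congr 1
      exact Complex.conj_ofReal _
    · unfold Matrix.IsHermitian
      rw [Matrix.conjTranspose_single, star_one]
  · set v : Fin (k + 1) → ℂ := star x with hv
    obtain ⟨t, ht⟩ := hess_quad hW4 hW9 hD13 b η hη z hz v
    have key := slab_quad b η hη z v hz1 hz2 hzb t _ rfl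
    set L : ℝ := (1 / 2) * ((‖v b - t * z b‖ ^ 2 + η ^ 2 * nsq (fun a => v a - t * z a)) /
        (‖z b‖ ^ 2 + η ^ 2 * nsq z)) with hL
    have hx : x = star v := by rw [hv, star_star]
    have e1 : v ⬝ᵥ (hessR (wH b η) z).mulVec x = (L : ℂ) := by
      rw [← ht, hx]
      unfold dotProduct Matrix.mulVec dotProduct
      refine Finset.sum_congr rfl fun a _ => ?_
      rw [Finset.mul_sum]
      refine Finset.sum_congr rfl fun c _ => ?_
      rw [Pi.star_apply]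
      rw [mul_assoc]
      rfl
    have e2 : v ⬝ᵥ x = (nsq v : ℂ) := by
      rw [hx]
      unfold dotProduct nsq
      push_cast
      refine Finset.sum_congr rfl fun a _ => ?_
      rw [Pi.star_apply, ← Complex.ofReal_pow, ← Complex.normSq_eq_norm_sq,
        Complex.normSq_eq_conj_mul_self, mul_comm]
      rfl
    have e3 : v ⬝ᵥ (Matrix.single b b (1 : ℂ)).mulVec x = ((‖v b‖ ^ 2 : ℝ) : ℂ) := by
      have : (Matrix.single b b (1 : ℂ)).mulVec x = Pi.single b (x b) := by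
        funext a
        by_cases hab : a = b
        · subst hab
          simp [Matrix.mulVec, dotProduct, Matrix.single_apply]
        · simp [Matrix.mulVec, dotProduct, hab, Ne.symm hab]
      rw [this, dotProduct_single, hx, Pi.star_apply, ← Complex.normSq_eq_norm_sq,
        Complex.normSq_eq_conj_mul_self, mul_comm]
      rfl
    rw [Matrix.add_mulVec, Matrix.sub_mulVec, Matrix.smul_mulVec, Matrix.smul_mulVec,
      Matrix.one_mulVec, dotProduct_add, dotProduct_sub, dotProduct_smul, dotProduct_smul,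
      e1, e2, e3]
    have e4 : ((η ^ 2 * 1056 : ℝ) : ℂ) • (L : ℂ) + (((η ^ 2 * 64 : ℝ) : ℂ) • (nsq v : ℂ) -
        ((‖v b‖ ^ 2 : ℝ) : ℂ)) =
        ((η ^ 2 * (1056 * L + 64 * nsq v) - ‖v b‖ ^ 2 : ℝ) : ℂ) := by
      simp only [smul_eq_mul]
      push_cast
      ring
    rw [e4]
    exact_mod_cast sub_nonneg.2 key

end Pool.Agent.H95.EM
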